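import Pool.Agent.Lib.Helper6.RudinShapiro.Basic
import Pool.Agent.Lib.Helper6.RudinShapiro.Tables

set_option autoImplicit false

/-!
# The automaton argument

For `t ≤ 5` we read the binary digits of `s + t d` from the lowest one on.  A state consists of the
carries, the last digits and the parities of the numbers of blocks `11` seen so far.  The carries and
the last digits form a class `i < 94`, the parities (relative to the one for `t = 0`) a pattern
`P < 32`.  `W r L w i P` says that, whatever the state `(i, P)` is, the next `L` digits of `s` can be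
chosen such that, if the next digits of `d` are those of `w` followed by a leading `1`, the window is
not constant.  We show that this holds for the states in the set `YY (J L w)`.
-/

namespace Pool.Agent.Lib.Helper6.RudinShapiro

variable {r : ℕ → Bool}

/-- carry of class `i` for the multiple `t` -/
def cc (i t : ℕ) : ℕ := Nat.mod (Nat.shiftRight CT (18 * i + 3 * t)) 8

/-- last digit of class `i` for the multiple `t` -/
def xx (i t : ℕ) : Bool := Nat.testBit XT (6 * i + t)

/-- target class -/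
def trI (i b s : ℕ) : ℕ := Nat.mod (Nat.shiftRight TI (8 * (4 * i + 2 * b + s))) 256

/-- change of the pattern -/
def trD (i b s : ℕ) : ℕ := Nat.mod (Nat.shiftRight TD (8 * (4 * i + 2 * b + s))) 256

/-- the pattern `P` as a function -/
def pf (P : ℕ) : ℕ → Bool
  | 0 => false
  | t + 1 => P.testBit t

theorem pf_xor (P D t : ℕ) : pf (P ^^^ D) t = (pf P t ^^ pf D t) := by
  cases t with
  | zero => rfl
  | succ t => simp [pf, Nat.testBit_xor]

theorem tr_check : ∀ i < 94, ∀ b < 2, ∀ s < 2, trI i b s < 94 ∧ trD i b s < 32 ∧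
    ∀ t < 6, cc i t + s + t * b = 2 * cc (trI i b s) t + (xx (trI i b s) t).toNat ∧
      pf (trD i b s) t = ((xx i t && xx (trI i b s) t) ^^ (xx i 0 && xx (trI i b s) 0)) := by
  decide +kernel

/-- twisted values of a window -/
def V (r : ℕ → Bool) (s d : ℕ) (c : ℕ → ℕ) (x p : ℕ → Bool) (t : ℕ) : Bool :=
  (r (s + t * d + c t) ^^ (x t && (s + t * d + c t).testBit 0)) ^^ p t

theorem V_step (hr : IsRS r) {s d σ b : ℕ} {c c' : ℕ → ℕ} {x x' p : ℕ → Bool} {t : ℕ}
    (h : c t + σ + t * b = 2 * c' t + (x' t).toNat) :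
    V r (2 * s + σ) (2 * d + b) c x p t = (V r s d c' x' p t ^^ (x t && x' t)) := by
  unfold V
  have e1 : 2 * s + σ + t * (2 * d + b) + c t = 2 * (s + t * d + c' t) + (x' t).toNat := by
    have : 2 * s + σ + t * (2 * d + b) + c t = 2 * (s + t * d) + (c t + σ + t * b) := by ring
    rw [this, h]
    ring
  have hb : (x' t).toNat < 2 := Bool.toNat_lt _
  rw [e1, hr.step _ _ hb, testBit_two_mul_add_zero _ _ hb]
  have e2 : ((x' t).toNat == 1) = x' t := by cases x' t <;> rfl
  rw [e2]
  cases r (s + t * d + c' t) <;> cases x' t <;> cases x t <;> cases (s + t * d + c' t).testBit 0 <;>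
    cases p t <;> rfl

/-- the window is constant -/
def Mono (r : ℕ → Bool) (i P s d : ℕ) : Prop :=
  ∀ t < 6, V r s d (cc i) (xx i) (pf P) t = V r s d (cc i) (xx i) (pf P) 0

theorem Mono_step (hr : IsRS r) {i P b σ s d : ℕ} (hi : i < 94) (hb : b < 2) (hσ : σ < 2) :
    Mono r i P (2 * s + σ) (2 * d + b) ↔ Mono r (trI i b σ) (P ^^^ trD i b σ) s d := by
  obtain ⟨-, -, h⟩ := tr_check i hi b hb σ hσ
  unfold Mono
  have key : ∀ t < 6, V r (2 * s + σ) (2 * d + b) (cc i) (xx i) (pf P) t =
      (V r s d (cc (trI i b σ)) (xx (trI i b σ)) (pf (P ^^^ trD i b σ)) t ^^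
        (xx i 0 && xx (trI i b σ) 0)) := by
    intro t ht
    rw [V_step hr (h t ht).1]
    have h2 := (h t ht).2
    unfold V
    rw [pf_xor, h2]
    generalize r (s + t * d + cc (trI i b σ) t) = a1
    generalize (xx (trI i b σ) t && (s + t * d + cc (trI i b σ) t).testBit 0) = a2
    generalize (xx i t && xx (trI i b σ) t) = a3
    generalize (xx i 0 && xx (trI i b σ) 0) = a4
    cases a1 <;> cases a2 <;> cases a3 <;> cases a4 <;> cases pf P t <;> rfl
  constructor
  · intro hM t ht
    have h1 := hM t ht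
    rw [key t ht, key 0 (by norm_num)] at h1
    generalize (xx i 0 && xx (trI i b σ) 0) = a4 at h1
    revert h1
    generalize V r s d (cc (trI i b σ)) (xx (trI i b σ)) (pf (P ^^^ trD i b σ)) t = a1
    generalize V r s d (cc (trI i b σ)) (xx (trI i b σ)) (pf (P ^^^ trD i b σ)) 0 = a2
    cases a1 <;> cases a2 <;> cases a4 <;> simp
  · intro hM t ht
    rw [key t ht, key 0 (by norm_num), hM t ht]

/-- There are `L` further digits of `s` that make the window non-constant. -/
def W (r : ℕ → Bool) (L w i P : ℕ) : Prop :=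
  ∃ σ < 2 ^ L, ∀ q, ¬ Mono r i P (2 ^ L * q + σ) (2 ^ L + w)

theorem W_step (hr : IsRS r) {L w i P b σ : ℕ} (hi : i < 94) (hb : b < 2) (hσ : σ < 2)
    (h : W r L w (trI i b σ) (P ^^^ trD i b σ)) : W r (L + 1) (2 * w + b) i P := by
  obtain ⟨τ, hτ, h⟩ := h
  refine ⟨2 * τ + σ, by rw [pow_succ]; omega, ?_⟩
  intro q hM
  apply h q
  have e1 : 2 ^ (L + 1) * q + (2 * τ + σ) = 2 * (2 ^ L * q + τ) + σ := by ring
  have e2 : 2 ^ (L + 1) + (2 * w + b) = 2 * (2 ^ L + w) + b := by ring
  rw [e1, e2, Mono_step hr hi hb hσ] at hM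
  exact hM

/-! ### Exclusive-or shifts of 32-bit sets -/

/-- exchange blocks of length `k` -/
def sw (m A k : ℕ) : ℕ :=
  Nat.lor (Nat.shiftLeft (Nat.land m A) k) (Nat.land (Nat.shiftRight m k) A)

theorem sw_testBit (m A k p : ℕ) : (sw m A k).testBit p =
    cond (A.testBit p) (((decide (k ≤ p) && A.testBit (p - k)) && m.testBit (p - k)) ||
      m.testBit (k + p)) ((decide (k ≤ p) && A.testBit (p - k)) && m.testBit (p - k)) := by
  have e : sw m A k = ((m &&& A) <<< k) ||| ((m >>> k) &&& A) := rfl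
  rw [e, Nat.testBit_lor, Nat.testBit_shiftLeft, Nat.testBit_land, Nat.testBit_land,
    Nat.testBit_shiftRight]
  have e2 : decide (p ≥ k) = decide (k ≤ p) := rfl
  rw [e2]
  cases A.testBit p <;> cases decide (k ≤ p) <;> cases A.testBit (p - k) <;>
    cases m.testBit (p - k) <;> cases m.testBit (k + p) <;> rfl

theorem sw1 (m p : ℕ) (hp : p < 32) : (sw m 0x55555555 1).testBit p = m.testBit (p ^^^ 1) := by
  rw [sw_testBit]
  interval_cases p <;> rfl

theorem sw2 (m p : ℕ) (hp : p < 32) : (sw m 0x33333333 2).testBit p = m.testBit (p ^^^ 2) := by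
  rw [sw_testBit]
  interval_cases p <;> rfl

theorem sw4 (m p : ℕ) (hp : p < 32) : (sw m 0x0F0F0F0F 4).testBit p = m.testBit (p ^^^ 4) := by
  rw [sw_testBit]
  interval_cases p <;> rfl

theorem sw8 (m p : ℕ) (hp : p < 32) : (sw m 0x00FF00FF 8).testBit p = m.testBit (p ^^^ 8) := by
  rw [sw_testBit]
  interval_cases p <;> rfl

theorem sw16 (m p : ℕ) (hp : p < 32) : (sw m 0x0000FFFF 16).testBit p = m.testBit (p ^^^ 16) := by
  rw [sw_testBit]
  interval_cases p <;> rfl

/-- one stage of an exclusive-or shift -/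
def stg (m A k : ℕ) (b : Bool) : ℕ := cond b (sw m A k) m

/-- exclusive-or shift of a set of patterns -/
def xsh (m D : ℕ) : ℕ :=
  stg (stg (stg (stg (stg m 0x55555555 1 (Nat.testBit D 0)) 0x33333333 2 (Nat.testBit D 1))
    0x0F0F0F0F 4 (Nat.testBit D 2)) 0x00FF00FF 8 (Nat.testBit D 3)) 0x0000FFFF 16 (Nat.testBit D 4)

theorem stg_testBit {m A k p : ℕ} {b : Bool}
    (h : (sw m A k).testBit p = m.testBit (p ^^^ k)) :
    (stg m A k b).testBit p = m.testBit (p ^^^ (b.toNat * k)) := by
  cases b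
  · simp [stg]
  · simp [stg, h]

theorem xor_lt32 {p k : ℕ} (hp : p < 32) (hk : k < 32) : p ^^^ k < 32 :=
  Nat.xor_lt_two_pow (n := 5) hp hk

theorem xsh_testBit (m D p : ℕ) (hp : p < 32) (hD : D < 32) :
    (xsh m D).testBit p = m.testBit (p ^^^ D) := by
  unfold xsh
  have b0 : ∀ (b : Bool) (k : ℕ), k < 32 → b.toNat * k < 32 := by
    intro b k hk
    cases b <;> simp [hk]
  rw [stg_testBit (sw16 _ _ hp)]
  have h1 := xor_lt32 hp (b0 (Nat.testBit D 4) 16 (by norm_num))
  rw [stg_testBit (sw8 _ _ h1)]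
  have h2 := xor_lt32 h1 (b0 (Nat.testBit D 3) 8 (by norm_num))
  rw [stg_testBit (sw4 _ _ h2)]
  have h3 := xor_lt32 h2 (b0 (Nat.testBit D 2) 4 (by norm_num))
  rw [stg_testBit (sw2 _ _ h3)]
  have h4 := xor_lt32 h3 (b0 (Nat.testBit D 1) 2 (by norm_num))
  rw [stg_testBit (sw1 _ _ h4)]
  congr 1
  revert D
  intro D hD _ _ _ _
  have : ∀ D < 32, ((Nat.testBit D 4).toNat * 16 ^^^ ((Nat.testBit D 3).toNat * 8 ^^^
    ((Nat.testBit D 2).toNat * 4 ^^^ ((Nat.testBit D 1).toNat * 2 ^^^
      (Nat.testBit D 0).toNat * 1)))) = D := by decide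
  rw [Nat.xor_assoc, Nat.xor_assoc, Nat.xor_assoc, Nat.xor_assoc, this D hD]

/-! ### The sets of states -/

/-- the `j`-th set of states -/
def YY (j : ℕ) : ℕ := Ys.getD j 0

/-- successor of the set `j` -/
def nxt (j b : ℕ) : ℕ := Nat.mod (Nat.shiftRight NX (8 * (2 * j + b))) 256

/-- `Y'` is contained in the set of states from which `Y` can be reached -/
def chk (Y Y' b : ℕ) : Bool :=
  (List.range 94).all fun i =>
    Nat.beq (Nat.land (Nat.mod (Nat.shiftRight Y' (32 * i)) 4294967296)
      (Nat.lor (xsh (Nat.mod (Nat.shiftRight Y (32 * trI i b 0)) 4294967296) (trD i b 0))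
        (xsh (Nat.mod (Nat.shiftRight Y (32 * trI i b 1)) 4294967296) (trD i b 1))))
      (Nat.mod (Nat.shiftRight Y' (32 * i)) 4294967296)

theorem chk_all : ((List.range 54).all fun j => (chk (YY j) (YY (nxt j 0)) 0 &&
    chk (YY j) (YY (nxt j 1)) 1) && (Nat.blt (nxt j 0) 54 && Nat.blt (nxt j 1) 54)) = true := by
  decide +kernel

end Pool.Agent.Lib.Helper6.RudinShapiro
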