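import Mathlib

set_option autoImplicit false

/-!
# Basic facts on the Rudin-Shapiro sequence and progressions

`IsRS r` says that `r` satisfies the recursion of the Rudin-Shapiro sequence (in `0/1` form).
The main results of this file are the splitting formula `IsRS.split`, the behaviour under
complementation of digits `IsRS.compl`, and the combinatorial lemma `pair_lemma`: if for two
suitable residues `s, s'` modulo `2 ^ j` the windows `D q + s + t d` (`t ≤ M`) are never constant,
then no progression of difference `d` is constant on `2 ^ j + 1` terms.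
-/

namespace Pool.Agent.Lib.Helper6.RudinShapiro

/-- The recursion of the Rudin-Shapiro sequence. -/
structure IsRS (r : ℕ → Bool) : Prop where
  zero : r 0 = false
  even : ∀ n, r (2 * n) = r n
  odd : ∀ n, r (2 * n + 1) = (r n ^^ n.testBit 0)

variable {r : ℕ → Bool}

theorem testBit_two_mul_add_zero (m : ℕ) (b : ℕ) (hb : b < 2) :
    (2 * m + b).testBit 0 = (b == 1) := by
  have : b = 0 ∨ b = 1 := by omega
  rcases this with rfl | rfl
  · simp [Nat.testBit_zero]
  · simp [Nat.testBit_zero]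

theorem testBit_two_mul_add_succ (m : ℕ) (b : ℕ) (hb : b < 2) (i : ℕ) :
    (2 * m + b).testBit (i + 1) = m.testBit i := by
  rw [Nat.testBit_succ]
  congr 1
  omega

theorem IsRS.step (hr : IsRS r) (m b : ℕ) (hb : b < 2) :
    r (2 * m + b) = (r m ^^ ((b == 1) && m.testBit 0)) := by
  have : b = 0 ∨ b = 1 := by omega
  rcases this with rfl | rfl
  · simp [hr.even]
  · simp [hr.odd]

/-- Splitting formula. -/
theorem IsRS.split (hr : IsRS r) (j : ℕ) : ∀ u v : ℕ, v < 2 ^ (j + 1) →
    r (2 ^ (j + 1) * u + v) = ((r u ^^ r v) ^^ (u.testBit 0 && v.testBit j)) := by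
  induction j with
  | zero =>
    intro u v hv
    have h2 : v < 2 := by simpa using hv
    have h0 : r v = false := by
      have := hr.step 0 v h2
      simpa [hr.zero] using this
    have h1 : v.testBit 0 = (v == 1) := by
      have := testBit_two_mul_add_zero 0 v h2
      simpa using this
    have := hr.step u v h2
    rw [show 2 ^ (0 + 1) * u + v = 2 * u + v by ring, this, h0, h1]
    cases r u <;> cases u.testBit 0 <;> cases (v == 1) <;> rfl
  | succ j ih =>
    intro u v hv
    obtain ⟨v', b, hb, rfl⟩ : ∃ v' b, b < 2 ∧ v = 2 * v' + b :=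
      ⟨v / 2, v % 2, Nat.mod_lt _ (by norm_num), by omega⟩
    have hv' : v' < 2 ^ (j + 1) := by
      rw [pow_succ] at hv
      omega
    have e1 : 2 ^ (j + 1 + 1) * u + (2 * v' + b) = 2 * (2 ^ (j + 1) * u + v') + b := by ring
    rw [e1, hr.step _ _ hb, ih u v' hv', hr.step _ _ hb, testBit_two_mul_add_succ _ _ hb]
    have e2 : (2 ^ (j + 1) * u + v').testBit 0 = v'.testBit 0 := by
      simp only [Nat.testBit_zero]
      have : 2 ^ (j + 1) * u = 2 * (2 ^ j * u) := by ring
      congr 1
      apply propext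
      omega
    rw [e2]
    cases r u <;> cases r v' <;> cases u.testBit 0 <;> cases v'.testBit j <;> cases (b == 1) <;>
      cases v'.testBit 0 <;> rfl

/-- Complementing all digits. -/
theorem IsRS.compl (hr : IsRS r) (m : ℕ) : ∀ v : ℕ, v < 2 ^ m →
    r (2 ^ (m + 1) - 1 - v) = ((r v ^^ v.testBit 0) ^^ m.testBit 0) := by
  induction m with
  | zero =>
    intro v hv
    have : v = 0 := by simpa using hv
    subst this
    have h1 : r 1 = false := by
      have := hr.odd 0
      simpa [hr.zero] using this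
    simp [h1, hr.zero]
  | succ m ih =>
    intro v hv
    obtain ⟨v', b, hb, rfl⟩ : ∃ v' b, b < 2 ∧ v = 2 * v' + b :=
      ⟨v / 2, v % 2, Nat.mod_lt _ (by norm_num), by omega⟩
    have hv' : v' < 2 ^ m := by
      rw [pow_succ] at hv
      omega
    have h2 : 2 ^ m ≤ 2 ^ (m + 1) := Nat.pow_le_pow_right (by norm_num) (by omega)
    have e1 : 2 ^ (m + 1 + 1) - 1 - (2 * v' + b) = 2 * (2 ^ (m + 1) - 1 - v') + (1 - b) := by
      rw [pow_succ 2 (m + 1)]
      omega
    have hm1 : (m + 1).testBit 0 = !(m.testBit 0) := by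
      simp only [Nat.testBit_zero]
      rcases Nat.mod_two_eq_zero_or_one m with h | h <;> simp [Nat.add_mod, h]
    have e3 : (2 ^ (m + 1) - 1 - v').testBit 0 = !(v'.testBit 0) := by
      simp only [Nat.testBit_zero]
      have : (2 ^ (m + 1) - 1 - v') % 2 = 1 - v' % 2 := by
        rw [pow_succ]
        omega
      rcases Nat.mod_two_eq_zero_or_one v' with h | h <;> simp [this, h]
    rw [e1, hr.step _ _ (by omega), ih v' hv', hr.step _ _ hb, testBit_two_mul_add_zero _ _ hb, hm1,
      e3]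
    have : b = 0 ∨ b = 1 := by omega
    rcases this with rfl | rfl <;>
    cases r v' <;> cases v'.testBit 0 <;> cases m.testBit 0 <;> rfl

/-- `Good r d N`: every progression of difference `d` changes colour within `N` steps. -/
def Good (r : ℕ → Bool) (d N : ℕ) : Prop := ∀ n, ∃ l, 1 ≤ l ∧ l ≤ N ∧ r (n + l * d) ≠ r n

theorem Good.mono {d N N' : ℕ} (h : Good r d N) (hN : N ≤ N') : Good r d N' := by
  intro n
  obtain ⟨l, h1, h2, h3⟩ := h n
  exact ⟨l, h1, h2.trans hN, h3⟩

/-- Passing from difference `d` to difference `2 d`. -/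
theorem Good.double (hr : IsRS r) {d N : ℕ} (h : Good r d N) : Good r (2 * d) N := by
  intro n
  obtain ⟨b, e, he, rfl⟩ : ∃ b e, e < 2 ∧ n = 2 * b + e :=
    ⟨n / 2, n % 2, Nat.mod_lt _ (by norm_num), by omega⟩
  by_contra hcon
  push Not at hcon
  have key : ∀ l ≤ N, (r (b + l * d) ^^ ((e == 1) && (b + l * d).testBit 0)) =
      (r b ^^ ((e == 1) && b.testBit 0)) := by
    intro l hl
    rcases Nat.eq_zero_or_pos l with rfl | hl0
    · simp
    · have := hcon l hl0 hl
      rw [show 2 * b + e + l * (2 * d) = 2 * (b + l * d) + e by ring, hr.step _ _ he,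
        hr.step _ _ he] at this
      exact this
  have : e = 0 ∨ e = 1 := by omega
  rcases this with rfl | rfl
  · obtain ⟨l, h1, h2, h3⟩ := h b
    apply h3
    simpa using key l h2
  · -- odd terms: complement the digits and reverse
    have key' : ∀ l ≤ N, (r (b + l * d) ^^ (b + l * d).testBit 0) = (r b ^^ b.testBit 0) := by
      intro l hl
      simpa using key l hl
    obtain ⟨m, hm⟩ : ∃ m, b + N * d < 2 ^ m := ⟨_, Nat.lt_two_pow_self⟩
    have h2 : 2 ^ m ≤ 2 ^ (m + 1) := Nat.pow_le_pow_right (by norm_num) (by omega)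
    set n' := 2 ^ (m + 1) - 1 - (b + N * d) with hn'
    have hval : ∀ l ≤ N, r (n' + l * d) = ((r b ^^ b.testBit 0) ^^ m.testBit 0) := by
      intro l hl
      have hld : l * d ≤ N * d := Nat.mul_le_mul_right d hl
      have hsub : (N - l) * d = N * d - l * d := Nat.sub_mul N l d
      have e1 : n' + l * d = 2 ^ (m + 1) - 1 - (b + (N - l) * d) := by
        rw [hn', hsub]
        omega
      rw [e1, hr.compl m _ (by rw [hsub]; omega), key' (N - l) (by omega)]
    obtain ⟨l, h1, h2', h3⟩ := h n'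
    apply h3
    have h0 := hval 0 (Nat.zero_le _)
    simp only [zero_mul, add_zero] at h0
    rw [hval l h2', h0]

/-- The windows of length `M + 1` starting in the residue class `s` modulo `D` are never
constant. -/
def BadW (r : ℕ → Bool) (D d s M : ℕ) : Prop :=
  ∀ q, ∃ t, t ≤ M ∧ r (D * q + s + t * d) ≠ r (D * q + s)

theorem exists_index {j d : ℕ} (hd : d % 2 = 1) (n s : ℕ) (hs : s < 2 ^ j) :
    ∃ l q, l < 2 ^ j ∧ n + l * d = 2 ^ j * q + s := by
  have hpos : 0 < 2 ^ j := pow_pos (by norm_num) j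
  have hcop : Nat.Coprime d (2 ^ j) := by
    apply Nat.Coprime.pow_right
    rw [Nat.coprime_two_right]
    exact Nat.odd_iff.2 hd
  obtain ⟨e, he⟩ : ∃ e : ℕ, d * e ≡ 1 [MOD 2 ^ j] := by
    rcases Nat.eq_zero_or_pos j with rfl | hj
    · exact ⟨1, by simp [Nat.modEq_one]⟩
    · obtain ⟨e, he⟩ := Nat.exists_mul_mod_eq_one_of_coprime hcop
        (Nat.one_lt_two_pow (by omega))
      refine ⟨e, ?_⟩
      rw [Nat.ModEq, he.2, Nat.mod_eq_of_lt (Nat.one_lt_two_pow (by omega))]
  set l := (e * (s + (2 ^ j - 1) * n)) % 2 ^ j with hl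
  have hmod : n + l * d ≡ s [MOD 2 ^ j] := by
    have h1 : l ≡ e * (s + (2 ^ j - 1) * n) [MOD 2 ^ j] := Nat.mod_modEq _ _
    have h2 : l * d ≡ s + (2 ^ j - 1) * n [MOD 2 ^ j] := by
      calc l * d ≡ e * (s + (2 ^ j - 1) * n) * d [MOD 2 ^ j] := h1.mul_right d
        _ = (d * e) * (s + (2 ^ j - 1) * n) := by ring
        _ ≡ 1 * (s + (2 ^ j - 1) * n) [MOD 2 ^ j] := he.mul_right _
        _ = s + (2 ^ j - 1) * n := one_mul _
    calc n + l * d ≡ n + (s + (2 ^ j - 1) * n) [MOD 2 ^ j] := h2.add_left n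
      _ = 2 ^ j * n + s := by
        have : (2 ^ j - 1) * n = 2 ^ j * n - n := by rw [Nat.sub_mul, one_mul]
        have h3 : n ≤ 2 ^ j * n := Nat.le_mul_of_pos_left n hpos
        omega
      _ ≡ 0 + s [MOD 2 ^ j] := by
        apply Nat.ModEq.add_right
        exact (Nat.modEq_zero_iff_dvd.2 (dvd_mul_right _ _))
      _ = s := zero_add s
  refine ⟨l, (n + l * d) / 2 ^ j, Nat.mod_lt _ hpos, ?_⟩
  have h4 : (n + l * d) % 2 ^ j = s := by
    rw [hmod, Nat.mod_eq_of_lt hs]
  have := Nat.div_add_mod (n + l * d) (2 ^ j)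
  rw [h4] at this
  exact this.symm

theorem pair_lemma {j d s s' M i : ℕ} (hd : d % 2 = 1) (hs : s < 2 ^ j) (hs' : s' < 2 ^ j)
    (hne : s ≠ s') (hi : s % 2 ^ i = s' % 2 ^ i) (hij : i ≤ j) (hM : M ≤ 2 ^ i + 1)
    (h1 : BadW r (2 ^ j) d s M) (h2 : BadW r (2 ^ j) d s' M) : Good r d (2 ^ j) := by
  intro n
  by_contra hcon
  push Not at hcon
  have hall : ∀ l ≤ 2 ^ j, r (n + l * d) = r n := by
    intro l hl
    rcases Nat.eq_zero_or_pos l with rfl | hl0
    · simp
    · exact hcon l hl0 hl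
  -- a bad window that is contained in the progression gives a contradiction
  have main : ∀ s l q, BadW r (2 ^ j) d s M → n + l * d = 2 ^ j * q + s → l + M ≤ 2 ^ j →
      False := by
    intro s l q hbad heq hle
    obtain ⟨t, ht, hne⟩ := hbad q
    apply hne
    have e1 : 2 ^ j * q + s + t * d = n + (l + t) * d := by
      rw [← heq]
      ring
    rw [e1, ← heq, hall _ (by omega), hall _ (by omega)]
  obtain ⟨l, q, hl, hq⟩ := exists_index hd n s hs
  obtain ⟨l', q', hl', hq'⟩ := exists_index hd n s' hs'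
  rcases Nat.lt_or_ge (2 ^ j) (l + M) with hlM | hlM
  swap
  · exact main s l q h1 hq hlM
  rcases Nat.lt_or_ge (2 ^ j) (l' + M) with hlM' | hlM'
  swap
  · exact main s' l' q' h2 hq' hlM'
  -- both `l` and `l'` are close to the end
  have hcop : Nat.Coprime (2 ^ i) d := by
    apply Nat.Coprime.pow_left
    rw [Nat.coprime_two_left]
    exact Nat.odd_iff.2 hd
  have hmod : n + l * d ≡ n + l' * d [MOD 2 ^ i] := by
    rw [hq, hq']
    have hdvd : 2 ^ i ∣ 2 ^ j := pow_dvd_pow 2 hij
    have a1 : 2 ^ j * q + s ≡ s [MOD 2 ^ i] := by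
      have : 2 ^ j * q ≡ 0 [MOD 2 ^ i] :=
        Nat.modEq_zero_iff_dvd.2 (hdvd.mul_right q)
      simpa using this.add_right s
    have a2 : 2 ^ j * q' + s' ≡ s' [MOD 2 ^ i] := by
      have : 2 ^ j * q' ≡ 0 [MOD 2 ^ i] :=
        Nat.modEq_zero_iff_dvd.2 (hdvd.mul_right q')
      simpa using this.add_right s'
    exact a1.trans ((show s ≡ s' [MOD 2 ^ i] from hi).trans a2.symm)
  have hmod2 : l * d ≡ l' * d [MOD 2 ^ i] := Nat.ModEq.add_left_cancel' n hmod
  have hmod3 : l ≡ l' [MOD 2 ^ i] := Nat.ModEq.cancel_right_of_coprime hcop hmod2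
  have hll : l = l' := by
    rcases Nat.lt_trichotomy l l' with h | h | h
    · exfalso
      have hdvd : 2 ^ i ∣ l' - l := (Nat.modEq_iff_dvd' h.le).1 hmod3
      have := Nat.le_of_dvd (by omega) hdvd
      omega
    · exact h
    · exfalso
      have hdvd : 2 ^ i ∣ l - l' := (Nat.modEq_iff_dvd' h.le).1 hmod3.symm
      have := Nat.le_of_dvd (by omega) hdvd
      omega
  subst hll
  have hdd : 2 ^ j * q + s = 2 ^ j * q' + s' := by rw [← hq, ← hq']
  apply hne
  have b1 : (2 ^ j * q + s) % 2 ^ j = s := by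
    rw [Nat.mul_add_mod, Nat.mod_eq_of_lt hs]
  have b2 : (2 ^ j * q' + s') % 2 ^ j = s' := by
    rw [Nat.mul_add_mod, Nat.mod_eq_of_lt hs']
  rw [← b1, hdd, b2]

end Pool.Agent.Lib.Helper6.RudinShapiro
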