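import Pool.Agent.Lib.Helper6.RudinShapiro.Sets

set_option autoImplicit false

/-!
# All differences

`good_main`: for `k ≥ 5` and odd `d` with `2 ^ (k - 1) < d < 2 ^ k - 1` every progression of
difference `d` changes colour within `2 ^ (k - 1)` steps.  For `k ≥ 9` this follows from the table of
sets, for `5 ≤ k ≤ 8` from the table `smallTab`.
-/

namespace Pool.Agent.Lib.Helper6.RudinShapiro

variable {r : ℕ → Bool}

/-! ### Long differences -/

/-- class after three digits -/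
def lowI (e y : ℕ) : ℕ :=
  trI (trI (trI 0 (e % 2) (y % 2)) (e / 2 % 2) (y / 2 % 2)) (e / 4 % 2) (y / 4 % 2)

/-- pattern after three digits -/
def lowP (e y : ℕ) : ℕ :=
  Nat.xor (Nat.xor (trD 0 (e % 2) (y % 2))
    (trD (trI 0 (e % 2) (y % 2)) (e / 2 % 2) (y / 2 % 2)))
    (trD (trI (trI 0 (e % 2) (y % 2)) (e / 2 % 2) (y / 2 % 2)) (e / 4 % 2) (y / 4 % 2))

theorem zero_class : ∀ t < 6, cc 0 t = 0 ∧ xx 0 t = false := by decide +kernel

theorem low_step (hr : IsRS r) {e y s d : ℕ} (he : e < 8) (hy : y < 8) :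
    Mono r 0 0 (8 * s + y) (8 * d + e) ↔ Mono r (lowI e y) (lowP e y) s d := by
  have e1 : 8 * s + y = 2 * (2 * (2 * s + y / 4 % 2) + y / 2 % 2) + y % 2 := by omega
  have e2 : 8 * d + e = 2 * (2 * (2 * d + e / 4 % 2) + e / 2 % 2) + e % 2 := by omega
  have m2 : ∀ a : ℕ, a % 2 < 2 := fun a => Nat.mod_lt _ (by norm_num)
  rw [e1, e2, Mono_step hr (by norm_num) (m2 _) (m2 _)]
  have i1 := (tr_check 0 (by norm_num) _ (m2 e) _ (m2 y)).1
  rw [Mono_step hr i1 (m2 _) (m2 _)]
  have i2 := (tr_check _ i1 _ (m2 (e / 2)) _ (m2 (y / 2))).1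
  rw [Mono_step hr i2 (m2 _) (m2 _)]
  have e3 : ((0 ^^^ trD 0 (e % 2) (y % 2)) ^^^
      trD (trI 0 (e % 2) (y % 2)) (e / 2 % 2) (y / 2 % 2)) ^^^
      trD (trI (trI 0 (e % 2) (y % 2)) (e / 2 % 2) (y / 2 % 2)) (e / 4 % 2) (y / 4 % 2) =
      lowP e y := by
    rw [Nat.zero_xor]
    rfl
  rw [e3]
  rfl

theorem badW_of_not_mono {D d s : ℕ} (h : ∀ q, ¬ Mono r 0 0 (D * q + s) d) : BadW r D d s 5 := by
  intro q
  by_contra hcon
  push Not at hcon
  apply h q
  intro t ht
  obtain ⟨hc, hx⟩ := zero_class t ht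
  obtain ⟨hc0, hx0⟩ := zero_class 0 (by norm_num)
  have hp : ∀ t < 6, pf 0 t = false := by
    intro t ht
    cases t with
    | zero => rfl
    | succ t => simp [pf]
  unfold V
  rw [hc, hx, hc0, hx0, hp t ht, hp 0 (by norm_num)]
  have := hcon t (by omega)
  simp [this]

/-- the sets reached after at least five steps -/
def isR (j : ℕ) : Bool := Nat.beq j 16 || Nat.ble 28 j

/-- the sets on the all-ones branch -/
def isO (j : ℕ) : Bool :=
  ((Nat.beq j 0 || Nat.beq j 2) || (Nat.beq j 6 || Nat.beq j 14)) || (Nat.beq j 28 || Nat.beq j 44)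

theorem isR_check : (∀ w < 32, isR (J 5 w) = true) ∧
    ∀ j < 54, isR j = true → isR (nxt j 0) = true ∧ isR (nxt j 1) = true := by
  decide +kernel

theorem isO_check : ∀ j < 54, isO (nxt j 0) = false ∧ (isO (nxt j 1) = true → isO j = true) := by
  decide +kernel

theorem final_check : ∀ j < 54, isR j = true → ∀ e < 4,
    (e = 3 ∧ isO j = true) ∨ ∃ y < 4,
      Nat.testBit (YY j) (32 * lowI (2 * e + 1) y + lowP (2 * e + 1) y) = true ∧
      Nat.testBit (YY j) (32 * lowI (2 * e + 1) (y + 4) + lowP (2 * e + 1) (y + 4)) = true := by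
  decide +kernel

theorem low_lt : ∀ e < 4, ∀ y < 8, lowI (2 * e + 1) y < 94 ∧ lowP (2 * e + 1) y < 32 := by
  decide +kernel

theorem J_isR (L : ℕ) : ∀ w < 2 ^ (L + 5), isR (J (L + 5) w) = true := by
  induction L with
  | zero => exact isR_check.1
  | succ L ih =>
    intro w hw
    have hw' : w / 2 < 2 ^ (L + 5) := by
      rw [show L + 1 + 5 = (L + 5) + 1 by ring, pow_succ] at hw
      omega
    have h := isR_check.2 _ (J_lt (L + 5) (w / 2)) (ih _ hw')
    have e : J (L + 1 + 5) w = nxt (J (L + 5) (w / 2)) (w % 2) := rfl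
    rw [e]
    rcases Nat.mod_two_eq_zero_or_one w with h2 | h2 <;> rw [h2]
    · exact h.1
    · exact h.2

theorem J_isO (L : ℕ) : ∀ w < 2 ^ L, isO (J L w) = true → w = 2 ^ L - 1 := by
  induction L with
  | zero =>
    intro w hw _
    simpa using hw
  | succ L ih =>
    intro w hw h
    have hw' : w / 2 < 2 ^ L := by
      rw [pow_succ] at hw
      omega
    have e : J (L + 1) w = nxt (J L (w / 2)) (w % 2) := rfl
    rw [e] at h
    have hc := isO_check _ (J_lt L (w / 2))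
    rcases Nat.mod_two_eq_zero_or_one w with h2 | h2
    · rw [h2, hc.1] at h
      exact absurd h (by simp)
    · rw [h2] at h
      have := ih _ hw' (hc.2 h)
      rw [pow_succ]
      omega

theorem good_long (hr : IsRS r) (L : ℕ) {d : ℕ} (hd : d % 2 = 1) (h1 : 2 ^ (L + 8) < d)
    (h2 : d < 2 ^ (L + 9) - 1) : Good r d (2 ^ (L + 8)) := by
  have e8 : 2 ^ (L + 8) = 8 * 2 ^ (L + 5) := by ring
  have e9 : 2 ^ (L + 9) = 16 * 2 ^ (L + 5) := by ring
  obtain ⟨w, e, he, hde⟩ : ∃ w e, e < 4 ∧ d = 8 * (2 ^ (L + 5) + w) + (2 * e + 1) := by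
    refine ⟨d / 8 - 2 ^ (L + 5), d % 8 / 2, by omega, ?_⟩
    have : 2 ^ (L + 5) ≤ d / 8 := by omega
    omega
  have hw : w < 2 ^ (L + 5) := by omega
  have hJ := J_lt (L + 5) w
  have hO : ¬ (e = 3 ∧ isO (J (L + 5) w) = true) := by
    rintro ⟨rfl, hO⟩
    have := J_isO (L + 5) w hw hO
    omega
  rcases final_check _ hJ (J_isR L w hw) e he with h | ⟨y, hy, hy1, hy2⟩
  · exact absurd h hO
  have l1 := low_lt e he y (by omega)
  have l2 := low_lt e he (y + 4) (by omega)
  obtain ⟨σ1, hσ1, hb1⟩ := sets_sound hr (L + 5) w hw _ l1.1 _ l1.2 hy1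
  obtain ⟨σ2, hσ2, hb2⟩ := sets_sound hr (L + 5) w hw _ l2.1 _ l2.2 hy2
  have B1 : BadW r (2 ^ (L + 8)) d (8 * σ1 + y) 5 := by
    apply badW_of_not_mono
    intro q hM
    apply hb1 q
    rw [hde, show 2 ^ (L + 8) * q + (8 * σ1 + y) = 8 * (2 ^ (L + 5) * q + σ1) + y by
      rw [e8]; ring, low_step hr (by omega) (by omega)] at hM
    exact hM
  have B2 : BadW r (2 ^ (L + 8)) d (8 * σ2 + (y + 4)) 5 := by
    apply badW_of_not_mono
    intro q hM
    apply hb2 q
    rw [hde, show 2 ^ (L + 8) * q + (8 * σ2 + (y + 4)) = 8 * (2 ^ (L + 5) * q + σ2) + (y + 4) by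
      rw [e8]; ring, low_step hr (by omega) (by omega)] at hM
    exact hM
  exact pair_lemma (i := 2) hd (by omega) (by omega) (by omega) (by omega) (by omega)
    (by norm_num) B1 B2

/-! ### Short differences -/

/-- values of the sequence below 2048 -/
def ST : ℕ := 0x474847b74748b848474847b7b8b747b7474847b74748b848b8b7b8484748b848474847b74748b848474847b7b8b747b7b8b7b848b8b747b7474847b7b8b747b7474847b74748b848474847b7b8b747b7474847b74748b848b8b7b8484748b848b8b7b848b8b747b7b8b7b8484748b848474847b74748b848b8b7b8484748b848b8b7b848b8b747b7b8b7b8484748b848b8b7b848b8b747b7474847b7b8b747b7b8b7b848b8b747b7b8b7b8484748b848474847b74748b848b8b7b8484748b848474847b74748b848474847b7b8b747b7474847b74748b848b8b7b8484748b848b8b7b848b8b747b7b8b7b8484748b848474847b74748b848b8b7b8484748b848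

theorem ST_check : ∀ m < 1024, (Nat.testBit ST (2 * m) = Nat.testBit ST m) ∧
    Nat.testBit ST (2 * m + 1) = (Nat.testBit ST m ^^ Nat.testBit m 0) := by
  decide +kernel

theorem ST_spec (hr : IsRS r) : ∀ v < 2048, r v = Nat.testBit ST v := by
  intro v
  induction v using Nat.strong_induction_on with
  | _ v ih =>
    intro hv
    rcases Nat.eq_zero_or_pos v with rfl | hpos
    · rw [hr.zero]
      decide +kernel
    · have h := ih (v / 2) (by omega) (by omega)
      have hc := ST_check (v / 2) (by omega)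
      rcases Nat.mod_two_eq_zero_or_one v with h2 | h2
      · have e : v = 2 * (v / 2) := by omega
        rw [e, hr.even, hc.1, h]
      · have e : v = 2 * (v / 2) + 1 := by omega
        rw [e, hr.odd, hc.2, h]

/-- values of the sequence on two consecutive blocks of length `16 D` -/
def SR (D v : ℕ) (b g : Bool) : Bool :=
  cond (Nat.blt v (16 * D)) (Nat.testBit ST v ^^ (b && Nat.ble (8 * D) v))
    ((g ^^ Nat.testBit ST (v - 16 * D)) ^^ (!b && Nat.ble (8 * D) (v - 16 * D)))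

theorem SR_spec (hr : IsRS r) {j : ℕ} (hj : j ≤ 7) (z v : ℕ) (hv : v < 32 * 2 ^ j) :
    r (16 * 2 ^ j * z + v) = (r z ^^ SR (2 ^ j) v (z.testBit 0) (r z ^^ r (z + 1))) := by
  have hpow : 2 ^ (j + 3 + 1) = 16 * 2 ^ j := by ring
  have hpow' : 2 ^ (j + 3) = 8 * 2 ^ j := by ring
  have h128 : 2 ^ j ≤ 128 := by
    calc 2 ^ j ≤ 2 ^ 7 := Nat.pow_le_pow_right (by norm_num) hj
      _ = 128 := by norm_num
  have top : ∀ v < 16 * 2 ^ j, v.testBit (j + 3) = Nat.ble (8 * 2 ^ j) v := by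
    intro v hv
    rcases Nat.lt_or_ge v (8 * 2 ^ j) with h | h
    · have e1 : Nat.ble (8 * 2 ^ j) v = false := by
        rw [Bool.eq_false_iff]
        intro hcon
        rw [Nat.ble_eq] at hcon
        omega
      rw [e1]
      apply Nat.testBit_lt_two_pow
      rw [hpow']
      exact h
    · have e1 : Nat.ble (8 * 2 ^ j) v = true := by rw [Nat.ble_eq]; exact h
      have e2 : v / (8 * 2 ^ j) = 1 := Nat.div_eq_of_lt_le (by omega) (by omega)
      rw [e1, Nat.testBit_eq_decide_div_mod_eq, hpow', e2]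
      rfl
  rcases Nat.lt_or_ge v (16 * 2 ^ j) with h | h
  · have e1 : Nat.blt v (16 * 2 ^ j) = true := by simpa [Nat.blt_eq] using h
    have := hr.split (j + 3) z v (by rw [hpow]; exact h)
    rw [hpow] at this
    rw [this]
    unfold SR
    rw [e1, ST_spec hr v (by omega), cond_true, top v h]
    cases r z <;> cases Nat.testBit ST v <;> cases z.testBit 0 <;>
      cases Nat.ble (8 * 2 ^ j) v <;> rfl
  · have e1 : Nat.blt v (16 * 2 ^ j) = false := by
      rw [Bool.eq_false_iff]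
      intro hcon
      rw [Nat.blt_eq] at hcon
      omega
    obtain ⟨v', rfl⟩ : ∃ v', v = 16 * 2 ^ j + v' := ⟨v - 16 * 2 ^ j, by omega⟩
    have := hr.split (j + 3) (z + 1) v' (by rw [hpow]; omega)
    rw [hpow] at this
    rw [show 16 * 2 ^ j * z + (16 * 2 ^ j + v') = 16 * 2 ^ j * (z + 1) + v' by ring, this]
    unfold SR
    rw [e1, ST_spec hr v' (by omega)]
    have e2 : 16 * 2 ^ j + v' - 16 * 2 ^ j = v' := by omega
    have e3 : (z + 1).testBit 0 = !(z.testBit 0) := by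
      simp only [Nat.testBit_zero]
      rcases Nat.mod_two_eq_zero_or_one z with h | h <;> simp [Nat.add_mod, h]
    rw [e2, e3, cond_false, top v' (by omega)]
    cases r z <;> cases r (z + 1) <;> cases Nat.testBit ST v' <;> cases z.testBit 0 <;>
      cases Nat.ble (8 * 2 ^ j) v' <;> rfl

/-- a finite check that a window is never constant -/
def badB (D d s M : ℕ) : Bool :=
  (List.range 16).all fun y => [true, false].all fun b => [true, false].all fun g =>
    (List.range (M + 1)).any fun t =>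
      SR D (D * y + s + t * d) b g != SR D (D * y + s) b g

theorem badB_sound (hr : IsRS r) {j d s M : ℕ} (hj : j ≤ 7) (hs : s < 2 ^ j)
    (hM : M * d ≤ 16 * 2 ^ j) (h : badB (2 ^ j) d s M = true) : BadW r (2 ^ j) d s M := by
  intro q
  obtain ⟨z, y, hy, rfl⟩ : ∃ z y, y < 16 ∧ q = 16 * z + y :=
    ⟨q / 16, q % 16, Nat.mod_lt _ (by norm_num), by omega⟩
  unfold badB at h
  rw [List.all_eq_true] at h
  have h1 := h y (List.mem_range.2 hy)
  rw [List.all_eq_true] at h1
  have h2 := h1 (z.testBit 0) (by cases z.testBit 0 <;> simp)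
  rw [List.all_eq_true] at h2
  have h3 := h2 (r z ^^ r (z + 1)) (by cases (r z ^^ r (z + 1)) <;> simp)
  rw [List.any_eq_true] at h3
  obtain ⟨t, ht, hne⟩ := h3
  rw [List.mem_range] at ht
  have hyD : 2 ^ j * y + s < 16 * 2 ^ j := by
    have : 2 ^ j * y ≤ 2 ^ j * 15 := Nat.mul_le_mul_left _ (by omega)
    omega
  have htd : t * d ≤ 16 * 2 ^ j := (Nat.mul_le_mul_right d (by omega)).trans hM
  refine ⟨t, by omega, ?_⟩
  have e1 : 2 ^ j * (16 * z + y) + s + t * d = 16 * 2 ^ j * z + (2 ^ j * y + s + t * d) := by ring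
  have e2 : 2 ^ j * (16 * z + y) + s = 16 * 2 ^ j * z + (2 ^ j * y + s) := by ring
  rw [e1, e2, SR_spec hr hj _ _ (by omega), SR_spec hr hj _ _ (by omega)]
  intro hcon
  revert hne hcon
  generalize SR (2 ^ j) (2 ^ j * y + s + t * d) (z.testBit 0) (r z ^^ r (z + 1)) = a1
  generalize SR (2 ^ j) (2 ^ j * y + s) (z.testBit 0) (r z ^^ r (z + 1)) = a2
  cases a1 <;> cases a2 <;> cases r z <;> simp

/-- `(d, s, s', M, i)` for `D = 16` -/
def tab4 : List (ℕ × ℕ × ℕ × ℕ × ℕ) := [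
  (1, 2, 6, 1, 2), (3, 0, 8, 1, 2), (5, 1, 5, 2, 2), (7, 1, 5, 3, 2), (9, 1, 9, 4, 2), (11, 7,
  15, 9, 3), (13, 1, 5, 4, 2), (15, 1, 9, 6, 3), (17, 6, 14, 5, 2), (19, 3, 11, 6, 3), (21, 2,
  10, 5, 2), (23, 4, 12, 7, 3), (25, 4, 12, 6, 3), (27, 0, 8, 7, 3), (29, 4, 12, 7, 3)]

/-- `(d, s, s', M, i)` for `D = 32` -/
def tab5 : List (ℕ × ℕ × ℕ × ℕ × ℕ) := [
  (31, 2, 18, 4, 2), (33, 9, 17, 8, 3), (35, 5, 21, 6, 3), (37, 2, 14, 5, 2), (39, 19, 27, 9,
  3), (41, 19, 31, 4, 2), (43, 1, 25, 7, 3), (45, 1, 9, 4, 2), (47, 0, 24, 5, 2), (49, 5, 29, 4,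
  2), (51, 1, 13, 5, 2), (53, 1, 21, 4, 2), (55, 27, 31, 4, 2), (57, 3, 7, 5, 2), (59, 2, 6, 5,
  2), (61, 11, 19, 6, 3)]

/-- `(d, s, s', M, i)` for `D = 64` -/
def tab6 : List (ℕ × ℕ × ℕ × ℕ × ℕ) := [
  (65, 30, 62, 5, 2), (67, 9, 29, 4, 2), (69, 1, 9, 4, 2), (71, 0, 28, 4, 2), (73, 1, 17, 5, 2),
  (75, 2, 6, 4, 2), (77, 2, 6, 4, 2), (79, 16, 48, 4, 2), (81, 17, 21, 4, 2), (83, 18, 34, 4,
  2), (85, 2, 18, 5, 2), (87, 5, 29, 4, 2), (89, 0, 48, 4, 2), (91, 34, 42, 4, 2), (93, 17, 25,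
  5, 2), (95, 18, 34, 4, 2), (97, 2, 14, 5, 2), (99, 8, 56, 4, 2), (101, 23, 47, 4, 2), (103, 5,
  49, 4, 2), (105, 0, 12, 5, 2), (107, 13, 49, 4, 2), (109, 1, 13, 5, 2), (111, 5, 45, 4, 2),
  (113, 0, 4, 4, 2), (115, 18, 46, 4, 2), (117, 5, 9, 5, 2), (119, 4, 8, 4, 2), (121, 4, 28, 4,
  2), (123, 3, 27, 4, 2), (125, 2, 54, 4, 2)]

/-- `(d, s, s', M, i)` for `D = 128` -/
def tab7 : List (ℕ × ℕ × ℕ × ℕ × ℕ) := [
  (129, 71, 83, 5, 2), (131, 9, 21, 4, 2), (133, 1, 9, 4, 2), (135, 0, 4, 4, 2), (137, 0, 4, 4,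
  2), (139, 3, 7, 4, 2), (141, 4, 28, 4, 2), (143, 3, 7, 4, 2), (145, 2, 14, 4, 2), (147, 0, 16,
  4, 2), (149, 8, 56, 4, 2), (151, 1, 25, 4, 2), (153, 6, 18, 4, 2), (155, 1, 49, 4, 2), (157,
  1, 53, 4, 2), (159, 10, 50, 4, 2), (161, 7, 51, 4, 2), (163, 1, 73, 4, 2), (165, 4, 12, 4, 2),
  (167, 5, 29, 4, 2), (169, 25, 65, 4, 2), (171, 90, 114, 4, 2), (173, 12, 88, 4, 2), (175, 15,
  63, 4, 2), (177, 0, 12, 4, 2), (179, 0, 48, 4, 2), (181, 1, 33, 4, 2), (183, 5, 29, 4, 2),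
  (185, 0, 32, 4, 2), (187, 0, 4, 4, 2), (189, 1, 9, 4, 2), (191, 0, 20, 5, 2), (193, 29, 125,
  4, 2), (195, 5, 13, 5, 2), (197, 7, 31, 4, 2), (199, 4, 24, 4, 2), (201, 10, 42, 4, 2), (203,
  28, 48, 4, 2), (205, 2, 70, 4, 2), (207, 41, 65, 4, 2), (209, 37, 69, 4, 2), (211, 17, 53, 4,
  2), (213, 1, 85, 4, 2), (215, 24, 68, 4, 2), (217, 9, 25, 4, 2), (219, 26, 58, 4, 2), (221,
  15, 35, 4, 2), (223, 5, 9, 4, 2), (225, 0, 4, 4, 2), (227, 2, 62, 4, 2), (229, 0, 28, 4, 2),
  (231, 0, 68, 4, 2), (233, 0, 56, 4, 2), (235, 22, 30, 4, 2), (237, 0, 4, 5, 2), (239, 4, 28,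
  4, 2), (241, 11, 19, 4, 2), (243, 5, 33, 4, 2), (245, 1, 109, 4, 2), (247, 35, 47, 4, 2),
  (249, 3, 43, 4, 2), (251, 6, 18, 4, 2), (253, 1, 21, 4, 2)]

/-- check of one entry -/
def entB (j : ℕ) : ℕ × ℕ × ℕ × ℕ × ℕ → Bool
  | (d, s, s', M, i) =>
    ((((Nat.blt s (2 ^ j) && Nat.blt s' (2 ^ j)) && (Nat.ble i j && Nat.ble M (2 ^ i + 1))) &&
      ((Nat.blt s s' && Nat.beq (s % 2 ^ i) (s' % 2 ^ i)) &&
        (Nat.beq (d % 2) 1 && Nat.ble (M * d) (16 * 2 ^ j)))) &&
      badB (2 ^ j) d s M) && badB (2 ^ j) d s' M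

theorem ent_sound (hr : IsRS r) {j : ℕ} (hj : j ≤ 7) {d s s' M i : ℕ}
    (h : entB j (d, s, s', M, i) = true) : Good r d (2 ^ j) := by
  unfold entB at h
  simp only [Bool.and_eq_true, Nat.blt_eq, Nat.ble_eq, Nat.beq_eq] at h
  obtain ⟨⟨⟨⟨⟨h1, h2⟩, h3, h4⟩, ⟨h5, h6⟩, h7, h8⟩, h9⟩, h10⟩ := h
  exact pair_lemma h7 h1 h2 h5.ne h6 h3 h4 (badB_sound hr hj h1 h8 h9)
    (badB_sound hr hj h2 h8 h10)

theorem tab_check : ((tab4.all (entB 4) && tab5.all (entB 5)) &&
    (tab6.all (entB 6) && tab7.all (entB 7))) = true := by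
  decide +kernel

theorem tab_mem : (∀ m < 15, (tab4.any fun x => Nat.beq x.1 (2 * m + 1)) = true) ∧
    (∀ m < 16, (tab5.any fun x => Nat.beq x.1 (2 * m + 31)) = true) ∧
    (∀ m < 31, (tab6.any fun x => Nat.beq x.1 (2 * m + 65)) = true) ∧
    (∀ m < 63, (tab7.any fun x => Nat.beq x.1 (2 * m + 129)) = true) := by
  decide +kernel

theorem good_of_tab (hr : IsRS r) {j : ℕ} (hj : j ≤ 7) {tab : List (ℕ × ℕ × ℕ × ℕ × ℕ)} {d : ℕ}
    (h1 : tab.all (entB j) = true) (h2 : (tab.any fun x => Nat.beq x.1 d) = true) :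
    Good r d (2 ^ j) := by
  rw [List.any_eq_true] at h2
  obtain ⟨⟨d', s, s', M, i⟩, hx, hd⟩ := h2
  rw [Nat.beq_eq] at hd
  simp only at hd
  subst hd
  rw [List.all_eq_true] at h1
  exact ent_sound hr hj (h1 _ hx)

/-- odd differences below 30 -/
theorem good_small (hr : IsRS r) {d : ℕ} (hd : d % 2 = 1) (h : d < 30) : Good r d 16 := by
  have hc := tab_check
  simp only [Bool.and_eq_true] at hc
  have := tab_mem.1 (d / 2) (by omega)
  rw [show 2 * (d / 2) + 1 = d by omega] at this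
  exact good_of_tab hr (j := 4) (by norm_num) hc.1.1 this

theorem good_31 (hr : IsRS r) : Good r 31 32 := by
  have hc := tab_check
  simp only [Bool.and_eq_true] at hc
  exact good_of_tab hr (j := 5) (by norm_num) hc.1.2 (tab_mem.2.1 0 (by norm_num))

theorem good_main (hr : IsRS r) {k d : ℕ} (hk : 5 ≤ k) (hd : d % 2 = 1) (h1 : 2 ^ (k - 1) < d)
    (h2 : d < 2 ^ k - 1) : Good r d (2 ^ (k - 1)) := by
  have hc := tab_check
  simp only [Bool.and_eq_true] at hc
  obtain ⟨-, m5, m6, m7⟩ := tab_mem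
  rcases Nat.lt_or_ge k 9 with h | h
  · interval_cases k
    · norm_num at h1 h2 ⊢
      exact good_small hr hd (by omega)
    · norm_num at h1 h2 ⊢
      have := m5 ((d - 31) / 2) (by omega)
      rw [show 2 * ((d - 31) / 2) + 31 = d by omega] at this
      exact good_of_tab hr (j := 5) (by norm_num) hc.1.2 this
    · norm_num at h1 h2 ⊢
      have := m6 ((d - 65) / 2) (by omega)
      rw [show 2 * ((d - 65) / 2) + 65 = d by omega] at this
      exact good_of_tab hr (j := 6) (by norm_num) hc.2.1 this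
    · norm_num at h1 h2 ⊢
      have := m7 ((d - 129) / 2) (by omega)
      rw [show 2 * ((d - 129) / 2) + 129 = d by omega] at this
      exact good_of_tab hr (j := 7) (by norm_num) hc.2.2 this
  · obtain ⟨L, rfl⟩ : ∃ L, k = L + 9 := ⟨k - 9, by omega⟩
    exact good_long hr L hd h1 h2

/-! ### The differences `2 ^ k - 1` -/

theorem ones_check : ∀ y < 16, ∀ b g : Bool,
    (∃ t < 6, (RR (y + t) b g ^^ Nat.testBit ST (12 - t)) ≠ (RR y b g ^^ Nat.testBit ST 12)) ∧
    (∃ t < 6, (RR (y + t) b g ^^ Nat.testBit ST (24 - t)) ≠ (RR y b g ^^ Nat.testBit ST 24)) := by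
  decide +kernel

theorem ones_value (hr : IsRS r) {k a q t : ℕ} (hk : 6 ≤ k) (ha : a ≤ 24) (ht : t ≤ a) :
    r (2 ^ k * q + a + t * (2 ^ k - 1)) = (r (q + t) ^^ Nat.testBit ST (a - t)) := by
  obtain ⟨j, rfl⟩ : ∃ j, k = j + 1 := ⟨k - 1, by omega⟩
  have h32 : 32 ≤ 2 ^ j := by
    calc 32 = 2 ^ 5 := by norm_num
      _ ≤ 2 ^ j := Nat.pow_le_pow_right (by norm_num) (by omega)
  have hp : 2 ^ (j + 1) = 2 * 2 ^ j := by ring
  have e1 : 2 ^ (j + 1) * q + a + t * (2 ^ (j + 1) - 1) = 2 ^ (j + 1) * (q + t) + (a - t) := by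
    have h1 : t * (2 ^ (j + 1) - 1) = 2 ^ (j + 1) * t - t := by
      rw [Nat.mul_sub, mul_one, mul_comm]
    have h2 : t ≤ 2 ^ (j + 1) * t := Nat.le_mul_of_pos_left t (by positivity)
    rw [h1, mul_add]
    omega
  have e2 : (a - t).testBit j = false := Nat.testBit_lt_two_pow (by omega)
  rw [e1, hr.split j _ _ (by omega), e2, ST_spec hr (a - t) (by omega)]
  cases r (q + t) <;> cases Nat.testBit ST (a - t) <;> simp

theorem good_ones (hr : IsRS r) {k : ℕ} (hk : 6 ≤ k) : Good r (2 ^ k - 1) (2 ^ k) := by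
  have h64 : 64 ≤ 2 ^ k := by
    calc 64 = 2 ^ 6 := by norm_num
      _ ≤ 2 ^ k := Nat.pow_le_pow_right (by norm_num) hk
  have hodd : (2 ^ k - 1) % 2 = 1 := by
    obtain ⟨j, rfl⟩ : ∃ j, k = j + 1 := ⟨k - 1, by omega⟩
    rw [pow_succ] at h64 ⊢
    omega
  have key : ∀ a, (a = 12 ∨ a = 24) → BadW r (2 ^ k) (2 ^ k - 1) a 5 := by
    intro a ha q
    obtain ⟨z, y, hy, rfl⟩ : ∃ z y, y < 16 ∧ q = 16 * z + y :=
      ⟨q / 16, q % 16, Nat.mod_lt _ (by norm_num), by omega⟩
    have h := ones_check y hy (z.testBit 0) (r z ^^ r (z + 1))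
    have h' : ∃ t < 6, (RR (y + t) (z.testBit 0) (r z ^^ r (z + 1)) ^^ Nat.testBit ST (a - t)) ≠
        (RR y (z.testBit 0) (r z ^^ r (z + 1)) ^^ Nat.testBit ST a) := by
      rcases ha with rfl | rfl
      · exact h.1
      · exact h.2
    obtain ⟨t, ht, hne⟩ := h'
    refine ⟨t, by omega, ?_⟩
    have e0 := ones_value hr (q := 16 * z + y) (t := 0) hk (show a ≤ 24 by omega) (by omega)
    simp only [zero_mul, add_zero, Nat.sub_zero] at e0
    rw [ones_value hr hk (show a ≤ 24 by omega) (by omega), e0,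
      show 16 * z + y + t = 16 * z + (y + t) by ring, RR_spec hr z (y + t) (by omega),
      RR_spec hr z y (by omega)]
    intro hcon
    apply hne
    revert hcon
    generalize RR (y + t) (z.testBit 0) (r z ^^ r (z + 1)) = a1
    generalize RR y (z.testBit 0) (r z ^^ r (z + 1)) = a2
    cases a1 <;> cases a2 <;> cases r z <;> cases Nat.testBit ST (a - t) <;>
      cases Nat.testBit ST a <;> simp
  exact pair_lemma (s := 12) (s' := 24) (i := 2) hodd (by omega) (by omega) (by norm_num)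
    (by norm_num) (by omega) (by norm_num) (key 12 (Or.inl rfl)) (key 24 (Or.inr rfl))

/-- the bound for all differences -/
theorem good_all (hr : IsRS r) {k : ℕ} (hk : 5 ≤ k) (d : ℕ) (hd1 : 1 ≤ d) (hd2 : d ≤ 2 ^ k - 2) :
    Good r d (2 ^ (k - 1)) := by
  induction d using Nat.strong_induction_on with
  | _ d ih =>
    have h16 : 16 ≤ 2 ^ (k - 1) := by
      calc 16 = 2 ^ 4 := by norm_num
        _ ≤ 2 ^ (k - 1) := Nat.pow_le_pow_right (by norm_num) (by omega)
    rcases Nat.mod_two_eq_zero_or_one d with h2 | h2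
    · have := (ih (d / 2) (by omega) (by omega) (by omega)).double hr
      rw [show 2 * (d / 2) = d by omega] at this
      exact this
    · rcases Nat.lt_or_ge d 30 with h30 | h30
      · exact (good_small hr h2 h30).mono h16
      · have hk6 : 6 ≤ k := by
          by_contra hcon
          have : k = 5 := by omega
          subst this
          norm_num at hd2
          omega
        rcases Nat.lt_or_ge d 32 with h32 | h32
        · have : d = 31 := by omega
          subst this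
          refine (good_31 hr).mono ?_
          calc 32 = 2 ^ 5 := by norm_num
            _ ≤ 2 ^ (k - 1) := Nat.pow_le_pow_right (by norm_num) (by omega)
        · -- the length of `d`
          obtain ⟨m, hm1, hm2⟩ : ∃ m, 2 ^ m ≤ d ∧ d < 2 ^ (m + 1) :=
            ⟨Nat.log 2 d, Nat.pow_log_le_self 2 (by omega), Nat.lt_pow_succ_log_self (by norm_num) d⟩
          have hm5 : 5 ≤ m := by
            by_contra hcon
            have : 2 ^ (m + 1) ≤ 2 ^ 5 := Nat.pow_le_pow_right (by norm_num) (by omega)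
            omega
          have hmk : m + 1 ≤ k := by
            by_contra hcon
            have : 2 ^ k ≤ 2 ^ m := Nat.pow_le_pow_right (by norm_num) (by omega)
            omega
          rcases Nat.lt_or_ge d (2 ^ (m + 1) - 1) with h3 | h3
          · have hne : 2 ^ m < d := by
              rcases Nat.lt_or_ge (2 ^ m) d with h | h
              · exact h
              · exfalso
                have : d = 2 ^ m := by omega
                obtain ⟨m', rfl⟩ : ∃ m', m = m' + 1 := ⟨m - 1, by omega⟩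
                rw [pow_succ] at this
                omega
            have := good_main hr (k := m + 1) (by omega) h2 (by simpa using hne) h3
            refine this.mono ?_
            exact Nat.pow_le_pow_right (by norm_num) (by omega)
          · have hd : d = 2 ^ (m + 1) - 1 := by omega
            have hmk' : m + 1 ≤ k - 1 := by
              by_contra hcon
              have : k = m + 1 := by omega
              subst this
              omega
            rw [hd]
            refine (good_ones hr (by omega)).mono ?_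
            exact Nat.pow_le_pow_right (by norm_num) hmk'

end Pool.Agent.Lib.Helper6.RudinShapiro
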