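import Pool.Agent.Lib.Helper6.RudinShapiro.Automaton

set_option autoImplicit false

/-!
# Soundness of the table of sets, and the main finite step
-/

namespace Pool.Agent.Lib.Helper6.RudinShapiro

variable {r : ℕ → Bool}

/-! ### One step -/

theorem testBit_block (Y a p : ℕ) (hp : p < 32) :
    (Nat.mod (Nat.shiftRight Y a) 4294967296).testBit p = Y.testBit (a + p) := by
  have e : Nat.mod (Nat.shiftRight Y a) 4294967296 = (Y >>> a) % 2 ^ 32 := rfl
  rw [e, Nat.testBit_mod_two_pow, Nat.testBit_shiftRight]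
  simp [hp]

theorem chk_sound {Y Y' b : ℕ} (h : chk Y Y' b = true) (hb : b < 2) {i P : ℕ} (hi : i < 94)
    (hP : P < 32) (hY : Y'.testBit (32 * i + P) = true) :
    Y.testBit (32 * trI i b 0 + (P ^^^ trD i b 0)) = true ∨
      Y.testBit (32 * trI i b 1 + (P ^^^ trD i b 1)) = true := by
  unfold chk at h
  rw [List.all_eq_true] at h
  have h1 := h i (List.mem_range.2 hi)
  have h2 := Nat.eq_of_beq_eq_true h1
  have d0 := (tr_check i hi b hb 0 (by norm_num)).2.1
  have d1 := (tr_check i hi b hb 1 (by norm_num)).2.1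
  have h3 := congrArg (fun m => Nat.testBit m P) h2
  have e : ∀ a b : ℕ, Nat.land a b = a &&& b := fun _ _ => rfl
  have e' : ∀ a b : ℕ, Nat.lor a b = a ||| b := fun _ _ => rfl
  rw [e, e', Nat.testBit_land, Nat.testBit_lor, testBit_block _ _ _ hP, hY,
    xsh_testBit _ _ _ hP d0, xsh_testBit _ _ _ hP d1,
    testBit_block _ _ _ (xor_lt32 hP d0), testBit_block _ _ _ (xor_lt32 hP d1)] at h3
  simpa using h3

theorem nxt_chk (j b : ℕ) (hj : j < 54) (hb : b < 2) :
    chk (YY j) (YY (nxt j b)) b = true ∧ nxt j b < 54 := by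
  have h := chk_all
  rw [List.all_eq_true] at h
  have h1 := h j (List.mem_range.2 hj)
  simp only [Bool.and_eq_true] at h1
  obtain ⟨⟨h2, h3⟩, h4, h5⟩ := h1
  have : b = 0 ∨ b = 1 := by omega
  rcases this with rfl | rfl
  · exact ⟨h2, by simpa [Nat.blt_eq] using h4⟩
  · exact ⟨h3, by simpa [Nat.blt_eq] using h5⟩

/-- index of the set belonging to the word `w` of length `L` -/
def J : ℕ → ℕ → ℕ
  | 0, _ => 0
  | L + 1, w => nxt (J L (w / 2)) (w % 2)

theorem J_lt (L : ℕ) : ∀ w, J L w < 54 := by
  induction L with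
  | zero => intro w; norm_num [J]
  | succ L ih => intro w; exact (nxt_chk _ _ (ih _) (Nat.mod_lt _ (by norm_num))).2

/-! ### The initial set -/

/-- values of the sequence for small numbers -/
def RT : ℕ := 0xb848

theorem RT_spec (hr : IsRS r) : ∀ v < 16, r v = RT.testBit v := by
  have h0 : r 0 = RT.testBit 0 := by rw [hr.zero]; rfl
  have st : ∀ m, r m = RT.testBit m → (RT.testBit (2 * m) = RT.testBit m) →
      (RT.testBit (2 * m + 1) = (RT.testBit m ^^ m.testBit 0)) →
      r (2 * m) = RT.testBit (2 * m) ∧ r (2 * m + 1) = RT.testBit (2 * m + 1) := by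
    intro m hm h1 h2
    rw [hr.even, hr.odd, h1, h2, hm]
    exact ⟨rfl, rfl⟩
  have s0 := st 0 h0 (by decide) (by decide)
  have h1 := s0.2
  norm_num at h1
  have s1 := st 1 h1 (by decide) (by decide)
  have h2 := s1.1
  have h3 := s1.2
  norm_num at h2 h3
  have s2 := st 2 h2 (by decide) (by decide)
  have s3 := st 3 h3 (by decide) (by decide)
  have h4 := s2.1
  have h5 := s2.2
  have h6 := s3.1
  have h7 := s3.2
  norm_num at h4 h5 h6 h7
  have s4 := st 4 h4 (by decide) (by decide)
  have s5 := st 5 h5 (by decide) (by decide)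
  have s6 := st 6 h6 (by decide) (by decide)
  have s7 := st 7 h7 (by decide) (by decide)
  intro v hv
  interval_cases v
  · exact h0
  · exact h1
  · exact h2
  · exact h3
  · exact h4
  · exact h5
  · exact h6
  · exact h7
  · exact s4.1
  · exact s4.2
  · exact s5.1
  · exact s5.2
  · exact s6.1
  · exact s6.2
  · exact s7.1
  · exact s7.2

/-- values of the sequence on two consecutive blocks of length 16 -/
def RR (v : ℕ) (b g : Bool) : Bool :=
  cond (Nat.blt v 16) (Nat.testBit RT v ^^ (b && Nat.testBit v 3))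
    ((g ^^ Nat.testBit RT (v - 16)) ^^ (!b && Nat.testBit (v - 16) 3))

theorem RR_spec (hr : IsRS r) (z v : ℕ) (hv : v < 32) :
    r (16 * z + v) = (r z ^^ RR v (z.testBit 0) (r z ^^ r (z + 1))) := by
  rcases Nat.lt_or_ge v 16 with h | h
  · have e1 : Nat.blt v 16 = true := by simpa [Nat.blt_eq] using h
    have := hr.split 3 z v (show v < 16 from h)
    rw [show (2 : ℕ) ^ (3 + 1) = 16 from rfl] at this
    rw [this]
    unfold RR
    rw [e1, RT_spec hr v h, cond_true]
    cases r z <;> cases RT.testBit v <;> cases z.testBit 0 <;> cases v.testBit 3 <;> rfl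
  · have e1 : Nat.blt v 16 = false := by
      rw [Bool.eq_false_iff]
      intro hcon
      rw [Nat.blt_eq] at hcon
      omega
    obtain ⟨v', rfl⟩ : ∃ v', v = 16 + v' := ⟨v - 16, by omega⟩
    have := hr.split 3 (z + 1) v' (show v' < 16 by omega)
    rw [show (2 : ℕ) ^ (3 + 1) = 16 from rfl] at this
    rw [show 16 * z + (16 + v') = 16 * (z + 1) + v' by ring, this]
    unfold RR
    rw [e1, RT_spec hr v' (by omega)]
    have e2 : 16 + v' - 16 = v' := by omega
    have e3 : (z + 1).testBit 0 = !(z.testBit 0) := by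
      simp only [Nat.testBit_zero]
      rcases Nat.mod_two_eq_zero_or_one z with h | h <;> simp [Nat.add_mod, h]
    rw [e2, e3, cond_false]
    cases r z <;> cases r (z + 1) <;> cases RT.testBit v' <;> cases z.testBit 0 <;>
      cases v'.testBit 3 <;> rfl

/-- twisted values -/
def VV (i y : ℕ) (b g : Bool) (t : ℕ) : Bool :=
  RR (y + t + cc i t) b g ^^ (xx i t && Nat.testBit (y + t + cc i t) 0)

/-- the pattern for which the window is constant -/
def cmp (i y : ℕ) (b g : Bool) : ℕ :=
  (VV i y b g 1 ^^ VV i y b g 0).toNat + (2 * (VV i y b g 2 ^^ VV i y b g 0).toNat +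
    (4 * (VV i y b g 3 ^^ VV i y b g 0).toNat + (8 * (VV i y b g 4 ^^ VV i y b g 0).toNat +
      16 * (VV i y b g 5 ^^ VV i y b g 0).toNat)))

theorem base_check : ∀ i < 94, (∀ t < 6, cc i t ≤ 5) ∧ ∀ y < 16, ∀ b g : Bool,
    Nat.testBit (YY 0) (32 * i + cmp i y b g) = false := by
  decide +kernel

theorem pattern_eq : ∀ P < 32, P = (P.testBit 0).toNat + (2 * (P.testBit 1).toNat +
    (4 * (P.testBit 2).toNat + (8 * (P.testBit 3).toNat + 16 * (P.testBit 4).toNat))) := by
  decide

theorem base_sound (hr : IsRS r) {i P : ℕ} (hi : i < 94) (hP : P < 32)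
    (hY : (YY 0).testBit (32 * i + P) = true) : W r 0 0 i P := by
  refine ⟨0, by norm_num, ?_⟩
  intro q hM
  obtain ⟨hc, hb⟩ := base_check i hi
  obtain ⟨z, y, hy, rfl⟩ : ∃ z y, y < 16 ∧ q = 16 * z + y :=
    ⟨q / 16, q % 16, Nat.mod_lt _ (by norm_num), by omega⟩
  set b := z.testBit 0 with hbdef
  set g := (r z ^^ r (z + 1)) with hgdef
  have hV : ∀ t < 6, V r (2 ^ 0 * (16 * z + y) + 0) (2 ^ 0 + 0) (cc i) (xx i) (pf P) t =
      (r z ^^ (VV i y b g t ^^ pf P t)) := by
    intro t ht
    have hct := hc t ht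
    unfold V VV
    have e1 : 2 ^ 0 * (16 * z + y) + 0 + t * (2 ^ 0 + 0) + cc i t = 16 * z + (y + t + cc i t) := by
      ring
    have e2 : (16 * z + (y + t + cc i t)).testBit 0 = (y + t + cc i t).testBit 0 := by
      simp only [Nat.testBit_zero]
      congr 1
      apply propext
      omega
    rw [e1, RR_spec hr z _ (by omega), e2]
    generalize RR (y + t + cc i t) (z.testBit 0) (r z ^^ r (z + 1)) = a1
    generalize (xx i t && (y + t + cc i t).testBit 0) = a2
    cases r z <;> cases a1 <;> cases a2 <;> cases pf P t <;> rfl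
  have hp : ∀ t < 6, pf P t = (VV i y b g t ^^ VV i y b g 0) := by
    intro t ht
    have h1 := hM t ht
    rw [hV t ht, hV 0 (by norm_num)] at h1
    have h0 : pf P 0 = false := rfl
    rw [h0] at h1
    revert h1
    cases r z <;> cases VV i y b g t <;> cases VV i y b g 0 <;> cases pf P t <;> simp
  have hPc : P = cmp i y b g := by
    rw [pattern_eq P hP]
    unfold cmp
    have h1 : P.testBit 0 = _ := hp 1 (by norm_num)
    have h2 : P.testBit 1 = _ := hp 2 (by norm_num)
    have h3 : P.testBit 2 = _ := hp 3 (by norm_num)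
    have h4 : P.testBit 3 = _ := hp 4 (by norm_num)
    have h5 : P.testBit 4 = _ := hp 5 (by norm_num)
    rw [h1, h2, h3, h4, h5]
  have := hb y hy b g
  rw [← hPc] at this
  have h2 : Nat.testBit (YY 0) (32 * i + P) = true := hY
  rw [h2] at this
  exact absurd this (by simp)

theorem sets_sound (hr : IsRS r) (L : ℕ) : ∀ w < 2 ^ L, ∀ i < 94, ∀ P < 32,
    (YY (J L w)).testBit (32 * i + P) = true → W r L w i P := by
  induction L with
  | zero =>
    intro w hw i hi P hP hY
    have : w = 0 := by simpa using hw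
    subst this
    exact base_sound hr hi hP hY
  | succ L ih =>
    intro w hw i hi P hP hY
    have hb : w % 2 < 2 := Nat.mod_lt _ (by norm_num)
    have hw' : w / 2 < 2 ^ L := by
      rw [pow_succ] at hw
      omega
    have h1 := chk_sound (nxt_chk _ _ (J_lt L (w / 2)) hb).1 hb hi hP hY
    have t0 := tr_check i hi (w % 2) hb 0 (by norm_num)
    have t1 := tr_check i hi (w % 2) hb 1 (by norm_num)
    have e : w = 2 * (w / 2) + w % 2 := by omega
    rw [e]
    rcases h1 with h1 | h1
    · exact W_step hr hi hb (by norm_num) (ih _ hw' _ t0.1 _ (xor_lt32 hP t0.2.1) h1)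
    · exact W_step hr hi hb (by norm_num) (ih _ hw' _ t1.1 _ (xor_lt32 hP t1.2.1) h1)

end Pool.Agent.Lib.Helper6.RudinShapiro
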